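import Mathlib

set_option autoImplicit false

namespace Pool.Agent.Results.MP_6c00f2_co.Seventeen

open Finset

/-- no nontrivial relation with coefficients in `{-1, 0, 1}`. -/
def Dissoc {G : Type} [AddCommGroup G] (B : Finset G) : Prop :=
  ∀ l : G → ℤ, (∀ b ∈ B, l b = -1 ∨ l b = 0 ∨ l b = 1) → ∑ b ∈ B, l b • b = 0 → ∀ b ∈ B, l b = 0

/-- the largest size of a dissociated subset of `A`. -/
noncomputable def dimSet {G : Type} [AddCommGroup G] (A : Finset G) : ℕ :=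
  sSup {k : ℕ | ∃ B ⊆ A, Dissoc B ∧ B.card = k}

/-- the least dimension of an `m`-subset. -/
noncomputable def dimMin (G : Type) [AddCommGroup G] (m : ℕ) : ℕ :=
  sInf {d : ℕ | ∃ A : Finset G, A.card = m ∧ dimSet A = d}

theorem four (a b c d : ZMod 17) (hne : a ≠ b ∧ a ≠ c ∧ a ≠ d ∧ b ≠ c ∧ b ≠ d ∧ c ≠ d)
    (h : ∀ x ∈ ({-1, 0, 1} : Finset ℤ), ∀ y ∈ ({-1, 0, 1} : Finset ℤ),
      ∀ z ∈ ({-1, 0, 1} : Finset ℤ), ∀ w ∈ ({-1, 0, 1} : Finset ℤ),
      (x : ZMod 17) * a + (y * b + (z * c + w * d)) = 0 → x = 0 ∧ y = 0 ∧ z = 0 ∧ w = 0) :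
    Dissoc ({a, b, c, d} : Finset (ZMod 17)) ∧ ({a, b, c, d} : Finset (ZMod 17)).card = 4 := by
  obtain ⟨h1, h2, h3, h4, h5, h6⟩ := hne
  have n1 : a ∉ ({b, c, d} : Finset (ZMod 17)) := by simp [h1, h2, h3]
  have n2 : b ∉ ({c, d} : Finset (ZMod 17)) := by simp [h4, h5]
  refine ⟨fun l hl e => ?_, by rw [card_insert_of_notMem n1, card_insert_of_notMem n2, card_pair h6]⟩
  rw [sum_insert n1, sum_insert n2, sum_pair h6] at e
  simp only [zsmul_eq_mul] at e
  have := h (l a) (by simpa using hl a (by simp)) (l b) (by simpa using hl b (by simp))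
    (l c) (by simpa using hl c (by simp)) (l d) (by simpa using hl d (by simp)) e
  intro x hx
  simp only [mem_insert, mem_singleton] at hx
  rcases hx with rfl | rfl | rfl | rfl <;> tauto

theorem big (A : Finset (ZMod 17)) (hA : A.card = 15) : 4 ≤ dimSet A := by
  have hb : BddAbove {k : ℕ | ∃ B ⊆ A, Dissoc B ∧ B.card = k} :=
    ⟨A.card, by rintro k ⟨B, hB, -, rfl⟩; exact card_le_card hB⟩
  by_contra hc
  have key : ∀ B : Finset (ZMod 17), Dissoc B ∧ B.card = 4 → ∃ x ∈ B, x ∈ Aᶜ := by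
    intro B hB
    by_contra h
    push Not at h
    exact hc (le_csSup hb ⟨B, fun x hx => by simpa using h x hx, hB⟩)
  obtain ⟨x, hx, hx'⟩ := key _ (four 1 2 4 8 (by decide) (by decide +kernel))
  obtain ⟨y, hy, hy'⟩ := key _ (four 16 15 13 9 (by decide) (by decide +kernel))
  obtain ⟨z, hz, hz'⟩ := key _ (four 3 6 12 7 (by decide) (by decide +kernel))
  have h2 : Aᶜ.card = 2 := by rw [card_compl, hA]; rfl
  have h3 : 2 < Aᶜ.card := by
    refine Finset.two_lt_card_iff.2 ⟨x, y, z, hx', hy', hz', ?_, ?_, ?_⟩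
    · rintro rfl; clear hx' hy' hz hz'; revert hx hy; revert x; decide
    · rintro rfl; clear hx' hy hy' hz'; revert hx hz; revert x; decide
    · rintro rfl; clear hx hx' hy' hz'; revert hy hz; revert y; decide
  omega

/-- `dim(ℤ₁₇, 15) ≥ 4 > ⌊log₂ 15⌋`. -/
theorem result : ∃ n m : ℕ, 1 ≤ m ∧ m ≤ n ∧ Nat.log 2 m < dimMin (ZMod n) m := by
  refine ⟨17, 15, by norm_num, by norm_num, ?_⟩
  obtain ⟨A, -, hA⟩ := Finset.exists_subset_card_eq (s := (univ : Finset (ZMod 17))) (n := 15)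
    (by decide)
  obtain ⟨B, h1, h2⟩ := Nat.sInf_mem (s := {d : ℕ | ∃ A : Finset (ZMod 17), A.card = 15 ∧
    dimSet A = d}) ⟨_, A, hA, rfl⟩
  have := big B h1
  rw [show Nat.log 2 15 = 3 by norm_num, dimMin]
  omega

end Pool.Agent.Results.MP_6c00f2_co.Seventeen
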